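import Mathlib
import Pool.Agent.Lib.PolyTime.Lists

/-!
# Consistent path systems and 3-CNF formulas: definitions
-/

namespace Pool.Agent.PathSys

open Pool.Agent.PolyTime

/-- A consistent path system in a finite simple graph `G` on the vertex set `{0, …, n-1}`.
`path u v` is the path `P_{u,v}`; reading it from `v` to `u` gives `P_{v,u}`.  Consistency:
if a contiguous segment of the vertex sequence of `P_{u,v}` starts at `x` and ends at `y`,
then it is the vertex sequence of `P_{x,y}`. -/
structure CPS where
  /-- number of vertices -/
  n : ℕ
  /-- the graph -/
  G : SimpleGraph (Fin n)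
  /-- the path joining two vertices -/
  path : (u v : Fin n) → G.Walk u v
  isPath : ∀ u v, (path u v).IsPath
  symm : ∀ u v, path v u = (path u v).reverse
  consistent : ∀ u v x y (s : List (Fin n)), s <:+: (path u v).support →
    s.head? = some x → s.getLast? = some y → s = (path x y).support

/-- `A` and its complement form a reduction of the path system: both are nonempty and closed
under taking the path between two of their vertices. -/
def CPS.IsReduction (S : CPS) (A : Set (Fin S.n)) : Prop :=
  A.Nonempty ∧ Aᶜ.Nonempty ∧
    (∀ u ∈ A, ∀ v ∈ A, ∀ w ∈ (S.path u v).support, w ∈ A) ∧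
    (∀ u ∈ Aᶜ, ∀ v ∈ Aᶜ, ∀ w ∈ (S.path u v).support, w ∈ Aᶜ)

/-- A path system is irreducible if it has no reduction. -/
def CPS.Irreducible (S : CPS) : Prop := ¬ ∃ A, S.IsReduction A

open Classical in
/-- The data written on the tape for a path system: the number of vertices, the adjacency
matrix, and the list of the paths `P_{i,j}` for `i < j`, each as its list of vertices. -/
noncomputable def CPS.data (S : CPS) : ℕ × (List (List Bool) × List (List ℕ)) :=
  (S.n,
   ((List.finRange S.n).map fun i => (List.finRange S.n).map fun j => decide (S.G.Adj i j),
    (List.finRange S.n).flatMap fun i =>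
      ((List.finRange S.n).filter fun j => decide (i < j)).map fun j =>
        (S.path i j).support.map Fin.val))

noncomputable instance : Rep CPS := ⟨fun S => toT S.data⟩

/-- A literal: the index of a variable, and a sign (`true` for positive). -/
abbrev Lit : Type := ℕ × Bool

/-- A 3-CNF formula: a list of clauses with three literals each. -/
abbrev CNF3 : Type := List (Lit × (Lit × Lit))

/-- The truth value of a literal. -/
def litVal (v : ℕ → Bool) (l : Lit) : Prop := v l.1 = l.2

/-- Satisfiability of a 3-CNF formula. -/
def Sat3 (φ : CNF3) : Prop :=
  ∃ v : ℕ → Bool, ∀ c ∈ φ, litVal v c.1 ∨ litVal v c.2.1 ∨ litVal v c.2.2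

end Pool.Agent.PathSys
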