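import Pool.Agent.Lib.MP_a08d7f_lc.Defs

/-!
# Building consistent path systems with one long path and otherwise short paths
-/

namespace Pool.Agent.PathSys

open List

/-- The segment of the long path between two numbers. -/
def seg (i j : ℕ) : List ℕ :=
  if i ≤ j then List.range' i (j + 1 - i) else (List.range' j (i + 1 - j)).reverse

/-- Being on the long path `1, …, K`. -/
def inLong (K i : ℕ) : Prop := 1 ≤ i ∧ i ≤ K

instance (K i : ℕ) : Decidable (inLong K i) := inferInstanceAs (Decidable (_ ∧ _))

/-- The paths: segments of the long path `1, …, K`, and otherwise paths with at most one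
inner vertex, given by `mid`. -/
def pth (K : ℕ) (mid : ℕ → ℕ → Option ℕ) (i j : ℕ) : List ℕ :=
  if i = j then [i] else
  if inLong K i ∧ inLong K j then seg i j else
  match mid i j with
  | some w => [i, w, j]
  | none => [i, j]

/-- The conditions on the table of middle vertices. -/
structure Good (n K : ℕ) (mid : ℕ → ℕ → Option ℕ) : Prop where
  long : K < n
  symm : ∀ i j, i < n → j < n → mid i j = mid j i
  val : ∀ i j w, i < n → j < n → mid i j = some w → i ≠ j → ¬ (inLong K i ∧ inLong K j) →
    w < n ∧ w ≠ i ∧ w ≠ j ∧ mid i w = none ∧ mid w j = none ∧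
      ¬ (inLong K i ∧ inLong K w) ∧ ¬ (inLong K w ∧ inLong K j)

theorem seg_self (i : ℕ) : seg i i = [i] := by simp [seg]

theorem seg_head (i j : ℕ) : (seg i j).head? = some i := by
  unfold seg
  split_ifs with h
  · rw [List.head?_range', if_neg (by omega)]
  · rw [List.head?_reverse, List.getLast?_range', if_neg (by omega)]
    congr 1; omega

theorem seg_reverse (i j : ℕ) : (seg i j).reverse = seg j i := by
  unfold seg
  split_ifs with h1 h2 h2
  · have : i = j := by omega
    subst this; simp
  · rfl
  · simp
  · omega

theorem seg_last (i j : ℕ) : (seg i j).getLast? = some j := by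
  rw [← seg_reverse, List.getLast?_reverse, seg_head]

theorem seg_nodup (i j : ℕ) : (seg i j).Nodup := by
  unfold seg
  split_ifs with h
  · exact List.nodup_range'
  · exact List.nodup_reverse.2 List.nodup_range'

theorem mem_seg {i j x : ℕ} : x ∈ seg i j ↔ (i ≤ x ∧ x ≤ j) ∨ (j ≤ x ∧ x ≤ i) := by
  unfold seg
  split_ifs with h
  · rw [List.mem_range'_1]; omega
  · rw [List.mem_reverse, List.mem_range'_1]; omega

theorem infix_range' {s : List ℕ} {a k : ℕ} (h : s <:+: List.range' a k) :
    ∃ m, s = List.range' m s.length := by
  obtain ⟨l1, l2, h⟩ := h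
  refine ⟨a + l1.length, ?_⟩
  apply List.ext_getElem
  · simp
  · intro i h1 h2
    have hlen : l1.length + s.length + l2.length = k := by
      have := congrArg List.length h
      simp only [List.length_append, List.length_range'] at this
      exact this
    have h3 : (l1 ++ s ++ l2)[l1.length + i]'(by simp; omega) = s[i] := by
      rw [List.getElem_append_left (by simp; omega), List.getElem_append_right (by omega)]
      simp
    rw [← h3]
    simp only [h, List.getElem_range']
    omega

theorem infix_seg_up {s : List ℕ} {i j x y : ℕ} (h : s <:+: List.range' i j)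
    (hx : s.head? = some x) (hy : s.getLast? = some y) : s = seg x y ∧ x ≤ y := by
  obtain ⟨m, hm⟩ := infix_range' h
  have hs : 0 < s.length := by
    rcases s with _ | _
    · simp at hx
    · simp
  rw [hm, List.head?_range', if_neg (by omega)] at hx
  rw [hm, List.getLast?_range', if_neg (by omega)] at hy
  simp only [Option.some.injEq, List.length_range'] at hx hy
  have hxy : x ≤ y := by omega
  refine ⟨?_, hxy⟩
  unfold seg
  rw [if_pos hxy, hm, hx]
  congr 1
  omega

theorem infix_seg {s : List ℕ} {i j x y : ℕ} (h : s <:+: seg i j)
    (hx : s.head? = some x) (hy : s.getLast? = some y) : s = seg x y := by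
  unfold seg at h
  split_ifs at h with h1
  · exact (infix_seg_up h hx hy).1
  · have h2 : s.reverse <:+: List.range' j (i + 1 - j) := by
      rw [← List.reverse_infix, List.reverse_reverse]; exact h
    have h3 := infix_seg_up h2 (x := y) (y := x) (by rw [List.head?_reverse]; exact hy)
      (by rw [List.getLast?_reverse]; exact hx)
    rw [← List.reverse_reverse s, h3.1, seg_reverse]

theorem infix_pair {α : Type*} {s : List α} {a b : α} (h : s <:+: [a, b]) (hs : s ≠ []) :
    s = [a] ∨ s = [b] ∨ s = [a, b] := by
  rw [List.infix_cons_iff, List.infix_cons_iff, List.infix_nil] at h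
  rcases h with h | h | h
  · rw [List.prefix_cons_iff] at h
    rcases h with h | ⟨t, rfl, ht⟩
    · exact absurd h hs
    · rw [List.prefix_cons_iff] at ht
      rcases ht with rfl | ⟨t, rfl, ht⟩
      · simp
      · rw [List.prefix_nil] at ht; subst ht; simp
  · rw [List.prefix_cons_iff] at h
    rcases h with h | ⟨t, rfl, ht⟩
    · exact absurd h hs
    · rw [List.prefix_nil] at ht; subst ht; simp
  · exact absurd h hs

theorem infix_triple {α : Type*} {s : List α} {a b c : α} (h : s <:+: [a, b, c])
    (hs : s ≠ []) : s = [a] ∨ s = [a, b] ∨ s = [a, b, c] ∨ s = [b] ∨ s = [c] ∨ s = [b, c] := by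
  rw [List.infix_cons_iff] at h
  rcases h with h | h
  · rw [List.prefix_cons_iff] at h
    rcases h with h | ⟨t, rfl, ht⟩
    · exact absurd h hs
    · rw [List.prefix_cons_iff] at ht
      rcases ht with rfl | ⟨t, rfl, ht⟩
      · simp
      · rw [List.prefix_cons_iff] at ht
        rcases ht with rfl | ⟨t, rfl, ht⟩
        · simp
        · rw [List.prefix_nil] at ht; subst ht; simp
  · rcases infix_pair h hs with h | h | h
    · simp [h]
    · simp [h]
    · simp [h]

section
variable {n K : ℕ} {mid : ℕ → ℕ → Option ℕ}

theorem pth_self (i : ℕ) : pth K mid i i = [i] := by simp [pth]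

theorem pth_head (i j : ℕ) : (pth K mid i j).head? = some i := by
  unfold pth
  split_ifs with h1 h2
  · rfl
  · exact seg_head i j
  · cases mid i j <;> rfl

theorem pth_last (i j : ℕ) : (pth K mid i j).getLast? = some j := by
  unfold pth
  split_ifs with h1 h2
  · simp [h1]
  · exact seg_last i j
  · cases mid i j <;> simp

theorem pth_reverse (hg : Good n K mid) {i j : ℕ} (hi : i < n) (hj : j < n) :
    (pth K mid i j).reverse = pth K mid j i := by
  unfold pth
  by_cases h1 : i = j
  · subst h1; simp
  · have h1' : ¬ j = i := fun h => h1 h.symm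
    rw [if_neg h1, if_neg h1']
    by_cases h2 : inLong K i ∧ inLong K j
    · rw [if_pos h2, if_pos h2.symm, seg_reverse]
    · rw [if_neg h2, if_neg fun h => h2 h.symm, hg.symm i j hi hj]
      cases mid j i <;> simp

theorem pth_nodup (hg : Good n K mid) {i j : ℕ} (hi : i < n) (hj : j < n) :
    (pth K mid i j).Nodup := by
  unfold pth
  split_ifs with h1 h2
  · simp
  · exact seg_nodup i j
  · cases h : mid i j with
    | none => simp [h1]
    | some w =>
      have := hg.val i j w hi hj h h1 h2
      simp [h1, this.2.1.symm, this.2.2.1]

theorem pth_bound (hg : Good n K mid) {i j x : ℕ} (hi : i < n) (hj : j < n)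
    (hx : x ∈ pth K mid i j) : x < n := by
  unfold pth at hx
  split_ifs at hx with h1 h2
  · simp at hx; omega
  · rw [mem_seg] at hx
    omega
  · cases h : mid i j with
    | none => simp [h] at hx; omega
    | some w =>
      have := hg.val i j w hi hj h h1 h2
      simp [h] at hx; omega

theorem pth_consistent (hg : Good n K mid) {i j x y : ℕ} (hi : i < n) (hj : j < n)
    {s : List ℕ} (hs : s <:+: pth K mid i j) (hx : s.head? = some x)
    (hy : s.getLast? = some y) : s = pth K mid x y := by
  have hne : s ≠ [] := by rintro rfl; simp at hx
  have hsingle : ∀ a, s = [a] → s = pth K mid x y := by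
    rintro a rfl
    simp only [List.head?_cons, List.getLast?_singleton, Option.some.injEq] at hx hy
    subst hx; subst hy; rw [pth_self]
  unfold pth at hs
  split_ifs at hs with h1 h2
  · have : s = [i] := by
      rw [List.infix_cons_iff, List.prefix_cons_iff, List.infix_nil] at hs
      rcases hs with (h | ⟨t, rfl, ht⟩) | h
      · exact absurd h hne
      · rw [List.prefix_nil] at ht; subst ht; rfl
      · exact absurd h hne
    exact hsingle _ this
  · have h3 := infix_seg hs hx hy
    have hxm : x ∈ seg i j := hs.subset (List.mem_of_mem_head? (by rw [hx]; rfl))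
    have hym : y ∈ seg i j := hs.subset (List.mem_of_getLast? hy)
    rw [mem_seg] at hxm hym
    have hlx : inLong K x := by unfold inLong at *; omega
    have hly : inLong K y := by unfold inLong at *; omega
    rw [h3]
    unfold pth
    split_ifs with h4 h5
    · subst h4; exact seg_self x
    · rfl
    · exact absurd ⟨hlx, hly⟩ h5
  · have pair : ∀ a b, s = [a, b] → pth K mid a b = [a, b] → s = pth K mid x y := by
      rintro a b rfl hab
      simp only [List.head?_cons, Option.some.injEq, List.getLast?_cons_cons,
        List.getLast?_singleton] at hx hy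
      subst hx; subst hy; rw [hab]
    cases h : mid i j with
    | none =>
      simp only [h] at hs
      rcases infix_pair hs hne with h | h | h
      · exact hsingle _ h
      · exact hsingle _ h
      · refine pair i j h ?_
        unfold pth
        rw [if_neg h1, if_neg h2]
        simp_all
    | some w =>
      simp only [h] at hs
      have hw := hg.val i j w hi hj h h1 h2
      rcases infix_triple hs hne with h3 | h3 | h3 | h3 | h3 | h3
      · exact hsingle _ h3
      · refine pair i w h3 ?_
        unfold pth
        rw [if_neg (fun h => hw.2.1 h.symm), if_neg hw.2.2.2.2.2.1, hw.2.2.2.1]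
      · subst h3
        simp only [List.head?_cons, Option.some.injEq, List.getLast?_cons_cons,
          List.getLast?_singleton] at hx hy
        subst hx; subst hy
        unfold pth
        rw [if_neg h1, if_neg h2, h]
      · exact hsingle _ h3
      · exact hsingle _ h3
      · refine pair w j h3 ?_
        unfold pth
        rw [if_neg hw.2.2.1, if_neg hw.2.2.2.2.2.2, hw.2.2.2.2.1]

/-- The paths as lists of elements of `Fin n`. -/
def pthF (n K : ℕ) (mid : ℕ → ℕ → Option ℕ) (i j : Fin n) : List (Fin n) :=
  (pth K mid i j).map (fun x => if h : x < n then ⟨x, h⟩ else i)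

theorem pthF_val (hg : Good n K mid) (i j : Fin n) :
    (pthF n K mid i j).map Fin.val = pth K mid i j := by
  unfold pthF
  rw [List.map_map]
  conv_rhs => rw [← List.map_id (pth K mid i j)]
  apply List.map_congr_left
  intro x hx
  have := pth_bound hg i.2 j.2 hx
  simp [this]

theorem map_val_injective : Function.Injective (List.map (Fin.val : Fin n → ℕ)) :=
  List.map_injective_iff.2 Fin.val_injective

theorem pthF_head (hg : Good n K mid) (i j : Fin n) : (pthF n K mid i j).head? = some i := by
  have h := congrArg List.head? (pthF_val hg i j)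
  rw [pth_head, List.head?_map] at h
  cases h' : (pthF n K mid i j).head? with
  | none => simp [h'] at h
  | some a => simp [h'] at h; exact congrArg some (Fin.ext h)

theorem pthF_last (hg : Good n K mid) (i j : Fin n) :
    (pthF n K mid i j).getLast? = some j := by
  have h := congrArg List.getLast? (pthF_val hg i j)
  rw [pth_last, List.getLast?_map] at h
  cases h' : (pthF n K mid i j).getLast? with
  | none => simp [h'] at h
  | some a => simp [h'] at h; exact congrArg some (Fin.ext h)

theorem pthF_reverse (hg : Good n K mid) (i j : Fin n) :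
    pthF n K mid j i = (pthF n K mid i j).reverse := by
  apply map_val_injective
  rw [List.map_reverse, pthF_val hg, pthF_val hg, pth_reverse hg i.2 j.2]

theorem pthF_nodup (hg : Good n K mid) (i j : Fin n) : (pthF n K mid i j).Nodup := by
  apply List.Nodup.of_map Fin.val
  rw [pthF_val hg]
  exact pth_nodup hg i.2 j.2

theorem pthF_consistent (hg : Good n K mid) (i j x y : Fin n) (s : List (Fin n))
    (hs : s <:+: pthF n K mid i j) (hx : s.head? = some x) (hy : s.getLast? = some y) :
    s = pthF n K mid x y := by
  apply map_val_injective
  rw [pthF_val hg]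
  refine pth_consistent hg i.2 j.2 (s := s.map Fin.val) ?_ ?_ ?_
  · rw [← pthF_val hg]; exact hs.map _
  · rw [List.head?_map, hx]; rfl
  · rw [List.getLast?_map, hy]; rfl

/-- The graph of the path system: `i` and `j` are adjacent if the path between them
is an edge. -/
def graphOf (hg : Good n K mid) : SimpleGraph (Fin n) where
  Adj i j := i ≠ j ∧ pth K mid i j = [i.1, j.1]
  symm := ⟨by
    rintro i j ⟨h1, h2⟩
    refine ⟨h1.symm, ?_⟩
    rw [← pth_reverse hg i.2 j.2, h2]; rfl⟩
  loopless := ⟨fun i h => h.1 rfl⟩

theorem pthF_chain (hg : Good n K mid) (i j : Fin n) :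
    (pthF n K mid i j).IsChain (graphOf hg).Adj := by
  rw [List.isChain_iff_getElem]
  intro k hk
  have hnd := pthF_nodup hg i j
  set l := pthF n K mid i j with hl
  have hin : [l[k], l[k + 1]] <:+: l := by
    refine ⟨l.take k, l.drop (k + 2), ?_⟩
    have h1 : l.drop k = l[k] :: l[k + 1] :: l.drop (k + 2) := by
      rw [List.drop_eq_getElem_cons (by omega), List.drop_eq_getElem_cons (by omega)]
    rw [List.append_assoc, List.cons_append, List.cons_append, List.nil_append, ← h1,
      List.take_append_drop]
  have h2 := pthF_consistent hg i j l[k] l[k + 1] _ hin (by simp) (by simp)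
  refine ⟨?_, ?_⟩
  · intro h
    have := (hnd.getElem_inj_iff (i := k) (j := k + 1)).1 h
    omega
  · rw [← pthF_val hg, ← h2]; rfl

theorem pthF_ne_nil (hg : Good n K mid) (i j : Fin n) : pthF n K mid i j ≠ [] := by
  intro h
  have := pthF_head hg i j
  simp [h] at this

theorem pthF_head' (hg : Good n K mid) (i j : Fin n) :
    (pthF n K mid i j).head (pthF_ne_nil hg i j) = i := by
  have := pthF_head hg i j
  rw [List.head?_eq_some_head (pthF_ne_nil hg i j)] at this
  exact Option.some.inj this

theorem pthF_last' (hg : Good n K mid) (i j : Fin n) :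
    (pthF n K mid i j).getLast (pthF_ne_nil hg i j) = j := by
  have := pthF_last hg i j
  rw [List.getLast?_eq_some_getLast (pthF_ne_nil hg i j)] at this
  exact Option.some.inj this

/-- The walk of a path. -/
def walkOf (hg : Good n K mid) (i j : Fin n) : (graphOf hg).Walk i j :=
  (SimpleGraph.Walk.ofSupport (pthF n K mid i j) (pthF_ne_nil hg i j)
    (pthF_chain hg i j)).copy (pthF_head' hg i j) (pthF_last' hg i j)

theorem support_walkOf (hg : Good n K mid) (i j : Fin n) :
    (walkOf hg i j).support = pthF n K mid i j := by
  unfold walkOf
  rw [SimpleGraph.Walk.support_copy, SimpleGraph.Walk.support_ofSupport]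

/-- The consistent path system given by a good table of middle vertices. -/
def mkCPS (hg : Good n K mid) : CPS where
  n := n
  G := graphOf hg
  path := walkOf hg
  isPath u v := by
    rw [SimpleGraph.Walk.isPath_def, support_walkOf]
    exact pthF_nodup hg u v
  symm u v := by
    apply SimpleGraph.Walk.ext_support
    rw [SimpleGraph.Walk.support_reverse, support_walkOf, support_walkOf, pthF_reverse hg u v]
  consistent u v x y s hs hx hy := by
    rw [support_walkOf] at hs ⊢
    exact pthF_consistent hg u v x y s hs hx hy

end

end Pool.Agent.PathSys
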