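import Pool.Agent.Lib.MP_a08d7f_lc.Build
import Pool.Agent.Lib.PolyTime.More

/-!
# From 3-CNF formulas to constraints on pairs with a middle
-/

namespace Pool.Agent.PathSys

open Pool.Agent.PolyTime

/-- Names of variables of the constraint system: `(false, (i, k))` is the `k`-th copy of the
`i`-th propositional variable (negated if `k` is odd), `(true, (j, 0))` belongs to the
`j`-th clause. -/
abbrev UN : Type := Bool × (ℕ × ℕ)

/-- Names of middles: `none` is the constant false, `some none` the constant true. -/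
abbrev MN : Type := Option (Option UN)

/-- The number of copies of each variable. -/
def Lc (φ : CNF3) : ℕ := 12 * φ.length + 4

/-- A bound for the variable indices. -/
def nv (φ : CNF3) : ℕ := (φ.map fun c => c.1.1 + (c.2.1.1 + c.2.2.1)).sum + 1

/-- The copy of a literal at (even) position `k`. -/
def lit (l : Lit) (k : ℕ) : UN := (false, (l.1, if l.2 then k else k + 1))

/-- The cyclic successor. -/
def nxt (L k : ℕ) : ℕ := if k + 1 = L then 0 else k + 1

/-- The constraints making the copies of a variable consistent. -/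
def cyc (φ : CNF3) : List (UN × (UN × MN)) :=
  (List.range (nv φ)).flatMap fun i => (List.range (Lc φ)).map fun k =>
    ((false, (i, k)), ((false, (i, nxt (Lc φ) k)),
      if k % 2 = 0 then some none else none))

/-- The constraints of the clauses. -/
def cls (φ : CNF3) : List (UN × (UN × MN)) :=
  (List.range φ.length).flatMap fun j =>
    match φ[j]? with
    | none => []
    | some c => [(lit c.1 (12 * j), (lit c.2.1 (12 * j + 4), some (some (true, (j, 0))))),
        ((true, (j, 0)), (lit c.2.2 (12 * j + 8), some none))]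

/-- All constraints. -/
def cons (φ : CNF3) : List (UN × (UN × MN)) := cyc φ ++ cls φ

/-- The names of the variables of the constraint system. -/
def unames (φ : CNF3) : List UN :=
  ((List.range (nv φ)).flatMap fun i => (List.range (Lc φ)).map fun k => (false, (i, k))) ++
    (List.range φ.length).map fun j => (true, (j, 0))

/-- The value of a middle. -/
def mval (val : UN → Bool) : MN → Bool
  | none => false
  | some none => true
  | some (some z) => val z

/-- Solutions of the constraint system. -/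
def Sol (φ : CNF3) (val : UN → Bool) : Prop :=
  ∀ c ∈ cons φ, val c.1 = val c.2.1 → mval val c.2.2 = val c.1

theorem mem_cyc {φ : CNF3} {c : UN × (UN × MN)} :
    c ∈ cyc φ ↔ ∃ i < nv φ, ∃ k < Lc φ, c = ((false, (i, k)), ((false, (i, nxt (Lc φ) k)),
      if k % 2 = 0 then some none else none)) := by
  simp only [cyc, List.mem_flatMap, List.mem_range, List.mem_map]
  constructor
  · rintro ⟨i, hi, k, hk, rfl⟩; exact ⟨i, hi, k, hk, rfl⟩
  · rintro ⟨i, hi, k, hk, rfl⟩; exact ⟨i, hi, k, hk, rfl⟩

theorem mem_cls {φ : CNF3} {c : UN × (UN × MN)} :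
    c ∈ cls φ ↔ ∃ (j : ℕ) (hj : j < φ.length),
      c = (lit φ[j].1 (12 * j), (lit φ[j].2.1 (12 * j + 4), some (some (true, (j, 0))))) ∨
      c = ((true, (j, 0)), (lit φ[j].2.2 (12 * j + 8), some none)) := by
  simp only [cls, List.mem_flatMap, List.mem_range]
  constructor
  · rintro ⟨j, hj, h⟩
    rw [List.getElem?_eq_getElem hj] at h
    simp only [List.mem_cons, List.not_mem_nil, or_false] at h
    exact ⟨j, hj, h⟩
  · rintro ⟨j, hj, h⟩
    refine ⟨j, hj, ?_⟩
    rw [List.getElem?_eq_getElem hj]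
    simp only [List.mem_cons, List.not_mem_nil, or_false]
    exact h

theorem mem_unames {φ : CNF3} {x : UN} :
    x ∈ unames φ ↔ (x.1 = false ∧ x.2.1 < nv φ ∧ x.2.2 < Lc φ) ∨
      (x.1 = true ∧ x.2.1 < φ.length ∧ x.2.2 = 0) := by
  obtain ⟨b, i, k⟩ := x
  simp only [unames, List.mem_append, List.mem_flatMap, List.mem_range, List.mem_map,
    Prod.mk.injEq]
  constructor
  · rintro (⟨i', hi, k', hk, rfl, rfl, rfl⟩ | ⟨j, hj, rfl, rfl, rfl⟩)
    · exact Or.inl ⟨rfl, hi, hk⟩
    · exact Or.inr ⟨rfl, hj, rfl⟩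
  · rintro (⟨rfl, hi, hk⟩ | ⟨rfl, hj, rfl⟩)
    · exact Or.inl ⟨i, hi, k, hk, rfl, rfl, rfl⟩
    · exact Or.inr ⟨i, hj, rfl, rfl, rfl⟩

theorem lit_fst (l : Lit) (k : ℕ) : (lit l k).1 = false := rfl
theorem lit_idx (l : Lit) (k : ℕ) : (lit l k).2.1 = l.1 := rfl
theorem lit_pos (l : Lit) (k : ℕ) : (lit l k).2.2 = k ∨ (lit l k).2.2 = k + 1 := by
  unfold lit; simp only; split_ifs <;> simp

theorem mem_lt_nv {φ : CNF3} {j : ℕ} (hj : j < φ.length) :
    φ[j].1.1 < nv φ ∧ φ[j].2.1.1 < nv φ ∧ φ[j].2.2.1 < nv φ := by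
  have h : φ[j].1.1 + (φ[j].2.1.1 + φ[j].2.2.1) ∈
      φ.map fun c => c.1.1 + (c.2.1.1 + c.2.2.1) :=
    List.mem_map.2 ⟨φ[j], List.getElem_mem hj, rfl⟩
  have h2 := List.le_sum_of_mem h
  unfold nv
  omega

theorem lit_mem {φ : CNF3} {j δ : ℕ} {l : Lit} (hj : j < φ.length) (hl : l.1 < nv φ)
    (hδ : δ ≤ 8) : lit l (12 * j + δ) ∈ unames φ := by
  rw [mem_unames]
  left
  refine ⟨rfl, hl, ?_⟩
  have := lit_pos l (12 * j + δ)
  unfold Lc
  omega

/-- Both ends of a constraint are names, they differ, and so on. -/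
theorem cons_mem {φ : CNF3} {c : UN × (UN × MN)} (hc : c ∈ cons φ) :
    c.1 ∈ unames φ ∧ c.2.1 ∈ unames φ ∧ c.1 ≠ c.2.1 ∧
      ∀ z, c.2.2 = some (some z) → z ∈ unames φ ∧ z ≠ c.1 ∧ z ≠ c.2.1 := by
  rcases List.mem_append.1 hc with hc | hc
  · obtain ⟨i, hi, k, hk, rfl⟩ := mem_cyc.1 hc
    have hL : 4 ≤ Lc φ := by unfold Lc; omega
    refine ⟨mem_unames.2 (Or.inl ⟨rfl, hi, hk⟩), mem_unames.2 (Or.inl ⟨rfl, hi, ?_⟩), ?_, ?_⟩
    · simp only [nxt]; split_ifs <;> omega
    · simp only [ne_eq, Prod.mk.injEq, true_and, nxt]; split_ifs <;> omega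
    · intro z hz; simp only at hz; split_ifs at hz <;> simp at hz
  · obtain ⟨j, hj, rfl | rfl⟩ := mem_cls.1 hc
    · obtain ⟨h1, h2, h3⟩ := mem_lt_nv hj
      refine ⟨lit_mem (δ := 0) hj h1 (by omega), lit_mem hj h2 (by omega), ?_, ?_⟩
      · intro h
        have h4 := congrArg (fun x : UN => x.2.2) h
        have h5 := lit_pos φ[j].1 (12 * j)
        have h6 := lit_pos φ[j].2.1 (12 * j + 4)
        simp only at h4
        omega
      · intro z hz
        simp only [Option.some.injEq] at hz
        subst hz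
        refine ⟨mem_unames.2 (Or.inr ⟨rfl, hj, rfl⟩), ?_, ?_⟩
        · intro h; have := congrArg Prod.fst h; simp [lit_fst] at this
        · intro h; have := congrArg Prod.fst h; simp [lit_fst] at this
    · obtain ⟨h1, h2, h3⟩ := mem_lt_nv hj
      refine ⟨mem_unames.2 (Or.inr ⟨rfl, hj, rfl⟩), lit_mem hj h3 (by omega), ?_, ?_⟩
      · intro h; have := congrArg Prod.fst h; simp [lit_fst] at this
      · intro z hz; simp at hz

/-- The unordered pair of a constraint. -/
def SamePair (x y u v : UN) : Prop := (x = u ∧ y = v) ∨ (x = v ∧ y = u)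

instance (x y u v : UN) : Decidable (SamePair x y u v) :=
  inferInstanceAs (Decidable (_ ∨ _))

/-- A coarse description of the constraints, sufficient for comparing their pairs. -/
theorem cons_shape {φ : CNF3} {c : UN × (UN × MN)} (hc : c ∈ cons φ) :
    (∃ i k, k < Lc φ ∧ c.1 = (false, (i, k)) ∧ c.2.1 = (false, (i, nxt (Lc φ) k)) ∧
      c.2.2 = if k % 2 = 0 then some none else none) ∨
    (∃ i i' j k k', j < φ.length ∧ c.1 = (false, (i, k)) ∧ c.2.1 = (false, (i', k')) ∧
      (k = 12 * j ∨ k = 12 * j + 1) ∧ (k' = 12 * j + 4 ∨ k' = 12 * j + 5) ∧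
      c.2.2 = some (some (true, (j, 0)))) ∨
    (∃ i' j k', j < φ.length ∧ c.1 = (true, (j, 0)) ∧ c.2.1 = (false, (i', k')) ∧
      (k' = 12 * j + 8 ∨ k' = 12 * j + 9) ∧ c.2.2 = some none) := by
  rcases List.mem_append.1 hc with hc | hc
  · obtain ⟨i, hi, k, hk, rfl⟩ := mem_cyc.1 hc
    exact Or.inl ⟨i, k, hk, rfl, rfl, rfl⟩
  · obtain ⟨j, hj, rfl | rfl⟩ := mem_cls.1 hc
    · exact Or.inr (Or.inl ⟨_, _, j, _, _, hj, rfl, rfl, lit_pos _ _, lit_pos _ _, rfl⟩)
    · exact Or.inr (Or.inr ⟨_, j, _, hj, rfl, rfl, lit_pos _ _, rfl⟩)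

/-- The middle of a constraint is determined by its pair. -/
theorem cons_functional {φ : CNF3} {c d : UN × (UN × MN)} (hc : c ∈ cons φ) (hd : d ∈ cons φ)
    (h : SamePair c.1 c.2.1 d.1 d.2.1) : c.2.2 = d.2.2 := by
  have hL : Lc φ = 12 * φ.length + 4 := rfl
  obtain ⟨c1, c2, cm⟩ := c
  obtain ⟨d1, d2, dm⟩ := d
  unfold SamePair at h
  simp only at h
  rcases cons_shape hc with ⟨i, k, hk, rfl, rfl, rfl⟩ |
      ⟨i, i', j, k, k', hj, rfl, rfl, hk, hk', rfl⟩ | ⟨i', j, k', hj, rfl, rfl, hk', rfl⟩ <;>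
    rcases cons_shape hd with ⟨a, l, hl, rfl, rfl, rfl⟩ |
      ⟨a, a', b, l, l', hb, rfl, rfl, hl, hl', rfl⟩ | ⟨a', b, l', hb, rfl, rfl, hl', rfl⟩ <;>
    simp only [Prod.mk.injEq, true_and, and_true, false_and, and_false, or_false, false_or,
      reduceCtorEq, nxt] at h ⊢
  · rcases h with ⟨⟨rfl, rfl⟩, _⟩ | ⟨⟨rfl, h1⟩, _, h2⟩
    · rfl
    · split_ifs at h1 h2 <;> omega
  · rcases h with ⟨⟨rfl, h1⟩, h2, h3⟩ | ⟨⟨rfl, h1⟩, h2, h3⟩ <;> split_ifs at h3 <;> omega
  · rcases h with ⟨⟨rfl, h1⟩, h2, h3⟩ | ⟨⟨rfl, h1⟩, h2, h3⟩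
    · split_ifs at h3 <;> omega
    · split_ifs at h1 <;> omega
  · have : j = b := by omega
    rw [this]

/-- The middle of a clause constraint is not paired with its ends. -/
theorem cons_middle {φ : CNF3} {c d : UN × (UN × MN)} {z : UN} (hc : c ∈ cons φ)
    (hz : c.2.2 = some (some z)) (hd : d ∈ cons φ) :
    ¬ SamePair c.1 z d.1 d.2.1 ∧ ¬ SamePair z c.2.1 d.1 d.2.1 := by
  have hL : Lc φ = 12 * φ.length + 4 := rfl
  obtain ⟨c1, c2, cm⟩ := c
  obtain ⟨d1, d2, dm⟩ := d
  unfold SamePair
  simp only at hz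
  rcases cons_shape hc with ⟨i, k, hk, rfl, rfl, rfl⟩ |
      ⟨i, i', j, k, k', hj, rfl, rfl, hk, hk', rfl⟩ | ⟨i', j, k', hj, rfl, rfl, hk', rfl⟩
  · split_ifs at hz <;> simp at hz
  · simp only [Option.some.injEq] at hz
    subst hz
    rcases cons_shape hd with ⟨a, l, hl, rfl, rfl, rfl⟩ |
      ⟨a, a', b, l, l', hb, rfl, rfl, hl, hl', rfl⟩ | ⟨a', b, l', hb, rfl, rfl, hl', rfl⟩ <;>
    simp only [Prod.mk.injEq, true_and, and_true, false_and, and_false, or_false, false_or,
      reduceCtorEq, not_false_eq_true] <;> omega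
  · simp at hz

/-- The value of a copy of a variable in a solution. -/
theorem sol_copy {φ : CNF3} {val : UN → Bool} (h : Sol φ val) {i : ℕ} (hi : i < nv φ) :
    ∀ k < Lc φ, val (false, (i, k)) = if k % 2 = 0 then val (false, (i, 0))
      else !val (false, (i, 0)) := by
  have hL : Lc φ = 12 * φ.length + 4 := rfl
  have step : ∀ k < Lc φ, val (false, (i, k)) = val (false, (i, nxt (Lc φ) k)) →
      val (false, (i, k)) = decide (k % 2 = 0) := by
    intro k hk he
    have := h _ (List.mem_append_left _ (mem_cyc.2 ⟨i, hi, k, hk, rfl⟩)) he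
    rw [← this]
    simp only
    split_ifs with h1 <;> simp [mval, h1]
  cases h0 : val (false, (i, 0)) with
  | false =>
    intro k
    induction k with
    | zero => intro _; simp [h0]
    | succ k ih =>
      intro hk
      have h1 := ih (by omega)
      have h2 := step k (by omega)
      rw [nxt, if_neg (by omega), h1] at h2
      rcases Nat.mod_two_eq_zero_or_one k with h3 | h3
      · have h4 : (k + 1) % 2 = 1 := by omega
        simp only [h3, if_true, decide_true] at h2
        simp only [h4, one_ne_zero, if_false, Bool.not_false]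
        cases h5 : val (false, (i, k + 1)) with
        | true => rfl
        | false => exact absurd (h2 h5.symm) (by simp)
      · have h4 : (k + 1) % 2 = 0 := by omega
        simp only [h3, one_ne_zero, if_false, decide_false, Bool.not_false] at h2
        simp only [h4, if_true]
        cases h5 : val (false, (i, k + 1)) with
        | false => rfl
        | true => exact absurd (h2 h5.symm) (by simp)
  | true =>
    have key : ∀ m, m < Lc φ → val (false, (i, Lc φ - 1 - m)) =
        decide ((Lc φ - 1 - m) % 2 = 0) := by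
      intro m
      induction m with
      | zero =>
        intro hm
        have h2 := step (Lc φ - 1) (by omega)
        have h3 : (Lc φ - 1) % 2 = 1 := by omega
        rw [nxt, if_pos (by omega), h0] at h2
        rw [Nat.sub_zero, h3]
        cases h5 : val (false, (i, Lc φ - 1)) with
        | false => rfl
        | true => have := h2 h5; rw [h5, h3] at this; exact absurd this (by simp)
      | succ m ih =>
        intro hm
        have h1 := ih (by omega)
        have h2 := step (Lc φ - 1 - (m + 1)) (by omega)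
        have e : Lc φ - 1 - (m + 1) + 1 = Lc φ - 1 - m := by omega
        rw [nxt, if_neg (by omega), e, h1] at h2
        rcases Nat.mod_two_eq_zero_or_one (Lc φ - 1 - m) with h3 | h3
        · have h4 : (Lc φ - 1 - (m + 1)) % 2 = 1 := by omega
          rw [h3] at h2
          rw [h4] at h2 ⊢
          cases h5 : val (false, (i, Lc φ - 1 - (m + 1))) with
          | false => rfl
          | true => have := h2 (by rw [h5]; rfl); rw [h5] at this; exact absurd this (by simp)
        · have h4 : (Lc φ - 1 - (m + 1)) % 2 = 0 := by omega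
          rw [h3] at h2
          rw [h4] at h2 ⊢
          cases h5 : val (false, (i, Lc φ - 1 - (m + 1))) with
          | true => rfl
          | false => have := h2 (by rw [h5]; rfl); rw [h5] at this; exact absurd this (by simp)
    intro k hk
    have := key (Lc φ - 1 - k) (by omega)
    have e : Lc φ - 1 - (Lc φ - 1 - k) = k := by omega
    rw [e] at this
    rw [this]
    split_ifs with h1 <;> simp [h1]

theorem sol_lit {φ : CNF3} {val : UN → Bool} (h : Sol φ val) {l : Lit} (hl : l.1 < nv φ)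
    {k : ℕ} (hk : k + 1 < Lc φ) (he : k % 2 = 0) :
    val (lit l k) = (val (false, (l.1, 0)) == l.2) := by
  obtain ⟨i, s⟩ := l
  unfold lit
  cases s with
  | true =>
    simp only [if_true]
    rw [sol_copy h hl k (by omega), if_pos he]
    simp
  | false =>
    simp only [Bool.false_eq_true, if_false]
    rw [sol_copy h hl (k + 1) hk, if_neg (by omega)]
    simp

/-- A solution of the constraints gives a satisfying assignment. -/
theorem sat_of_sol {φ : CNF3} {val : UN → Bool} (h : Sol φ val) : Sat3 φ := by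
  refine ⟨fun i => val (false, (i, 0)), ?_⟩
  intro c hc
  obtain ⟨j, hj, rfl⟩ := List.mem_iff_getElem.1 hc
  obtain ⟨h1, h2, h3⟩ := mem_lt_nv hj
  have hL : Lc φ = 12 * φ.length + 4 := rfl
  have hA := h _ (List.mem_append_right _ (mem_cls.2 ⟨j, hj, Or.inl rfl⟩))
  have hB := h _ (List.mem_append_right _ (mem_cls.2 ⟨j, hj, Or.inr rfl⟩))
  simp only [mval] at hA hB
  rw [sol_lit h h1 (by omega) (by omega), sol_lit h h2 (by omega) (by omega)] at hA
  rw [sol_lit h h3 (by omega) (by omega)] at hB
  unfold litVal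
  simp only
  by_contra hcon
  rw [not_or, not_or] at hcon
  obtain ⟨g1, g2, g3⟩ := hcon
  have e1 : (val (false, (φ[j].1.1, 0)) == φ[j].1.2) = false := by simpa using g1
  have e2 : (val (false, (φ[j].2.1.1, 0)) == φ[j].2.1.2) = false := by simpa using g2
  have e3 : (val (false, (φ[j].2.2.1, 0)) == φ[j].2.2.2) = false := by simpa using g3
  rw [e1, e2] at hA
  rw [e3, hA rfl] at hB
  exact absurd (hB rfl) (by simp)

/-- The values of the names under an assignment. -/
def valOf (φ : CNF3) (v : ℕ → Bool) : UN → Bool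
  | (false, (i, k)) => if k % 2 = 0 then v i else !v i
  | (true, (j, _)) => match φ[j]? with
    | none => false
    | some c => (v c.1.1 == c.1.2) || (v c.2.1.1 == c.2.1.2)

theorem valOf_lit (φ : CNF3) (v : ℕ → Bool) (l : Lit) {k : ℕ} (hk : k % 2 = 0) :
    valOf φ v (lit l k) = (v l.1 == l.2) := by
  obtain ⟨i, s⟩ := l
  cases s
  · have : ¬ (k + 1) % 2 = 0 := by omega
    simp [lit, valOf, this]
  · simp [lit, valOf, hk]

/-- A satisfying assignment gives a solution of the constraints. -/
theorem sol_of_sat {φ : CNF3} {v : ℕ → Bool}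
    (hv : ∀ c ∈ φ, litVal v c.1 ∨ litVal v c.2.1 ∨ litVal v c.2.2) : Sol φ (valOf φ v) := by
  intro c hc
  have hL : Lc φ = 12 * φ.length + 4 := rfl
  rcases List.mem_append.1 hc with hc | hc
  · obtain ⟨i, hi, k, hk, rfl⟩ := mem_cyc.1 hc
    intro he
    exfalso
    have hp : nxt (Lc φ) k % 2 = 0 ↔ ¬ k % 2 = 0 := by
      unfold nxt; split_ifs <;> omega
    simp only [valOf] at he
    by_cases h3 : k % 2 = 0
    · have h4 : ¬ nxt (Lc φ) k % 2 = 0 := fun h => hp.1 h h3
      rw [if_pos h3, if_neg h4] at he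
      simp at he
    · have h4 : nxt (Lc φ) k % 2 = 0 := hp.2 h3
      rw [if_neg h3, if_pos h4] at he
      simp at he
  · obtain ⟨j, hj, rfl | rfl⟩ := mem_cls.1 hc
    · simp only [mval]
      rw [valOf_lit _ _ _ (by omega), valOf_lit _ _ _ (by omega)]
      intro he
      have : valOf φ v (true, (j, 0)) = ((v φ[j].1.1 == φ[j].1.2) ||
          (v φ[j].2.1.1 == φ[j].2.1.2)) := by
        simp only [valOf, List.getElem?_eq_getElem hj]
      rw [this, ← he, Bool.or_self]
    · simp only [mval]
      rw [valOf_lit _ _ _ (by omega)]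
      have : valOf φ v (true, (j, 0)) = ((v φ[j].1.1 == φ[j].1.2) ||
          (v φ[j].2.1.1 == φ[j].2.1.2)) := by
        simp only [valOf, List.getElem?_eq_getElem hj]
      rw [this]
      intro he
      have h1 := hv φ[j] (List.getElem_mem hj)
      unfold litVal at h1
      rcases h1 with h1 | h1 | h1
      · simp [h1]
      · simp [h1]
      · rw [h1] at he; simp at he; simp [he]

end Pool.Agent.PathSys
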