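import Pool.Agent.Lib.MP_a08d7f_lc.Defs
import Pool.Agent.Lib.PolyTime.More

/-!
# The encoding of consistent path systems is injective
-/

namespace Pool.Agent.PathSys

open Pool.Agent.PolyTime

theorem map_finRange_inj {n : ℕ} {β : Type*} {f g : Fin n → β}
    (h : (List.finRange n).map f = (List.finRange n).map g) : f = g := by
  funext i
  exact (List.map_inj_left.1 h) i (List.mem_finRange i)

theorem flatMap_eq_of_length {α β : Type*} {f g : α → List β} :
    ∀ (l : List α), (∀ a ∈ l, (f a).length = (g a).length) → l.flatMap f = l.flatMap g →
      ∀ a ∈ l, f a = g a := by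
  intro l
  induction l with
  | nil => intro _ _ a ha; simp at ha
  | cons b l ih =>
    intro hl h a ha
    rw [List.flatMap_cons, List.flatMap_cons] at h
    have h1 := List.append_inj h (hl b (by simp))
    rcases List.mem_cons.1 ha with rfl | ha
    · exact h1.1
    · exact ih (fun a ha => hl a (by simp [ha])) h1.2 a ha

theorem CPS.data_injective : Function.Injective CPS.data := by
  intro S S' h
  obtain ⟨n, G, path, isPath, symm, cons⟩ := S
  obtain ⟨n', G', path', isPath', symm', cons'⟩ := S'
  unfold CPS.data at h
  simp only [Prod.mk.injEq] at h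
  obtain ⟨h1, h2, h3⟩ := h
  subst h1
  have hG : G = G' := by
    have h4 := map_finRange_inj h2
    ext i j
    have h5 := congrFun h4 i
    have h6 := congrFun (map_finRange_inj h5) j
    simpa using h6
  subst hG
  have hp : ∀ i j : Fin n, i < j → path i j = path' i j := by
    intro i j hij
    have h4 := flatMap_eq_of_length _ (by intro a _; simp) h3 i (List.mem_finRange i)
    have h5 := (List.map_inj_left.1 h4) j
      (List.mem_filter.2 ⟨List.mem_finRange j, by simpa using hij⟩)
    apply SimpleGraph.Walk.ext_support
    exact List.map_injective_iff.2 Fin.val_injective h5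
  have hpath : path = path' := by
    funext i j
    rcases lt_trichotomy i j with hij | hij | hij
    · exact hp i j hij
    · subst hij
      rw [(SimpleGraph.Walk.isPath_iff_nil.1 (isPath i i)).eq_nil,
        (SimpleGraph.Walk.isPath_iff_nil.1 (isPath' i i)).eq_nil]
    · rw [symm j i, symm' j i, hp j i hij]
  subst hpath
  rfl

instance : InjRep CPS := ⟨fun _ _ h =>
  CPS.data_injective (InjRep.inj (α := ℕ × (List (List Bool) × List (List ℕ))) h)⟩

end Pool.Agent.PathSys
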