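import Pool.Agent.Lib.MP_a08d7f_lc.System

/-!
# The path system of a 3-CNF formula is computable in polynomial time
-/

namespace Pool.Agent.PathSys

open Pool.Agent.PolyTime

/-! ### The data of the path system as lists of numbers -/

theorem map_val_finRange (n : ℕ) : (List.finRange n).map Fin.val = List.range n := by
  apply List.ext_getElem
  · simp
  · intro i h1 h2; simp

/-- Adjacency as a Boolean function of numbers. -/
def adjB (φ : CNF3) (i j : ℕ) : Bool :=
  decide (i ≠ j ∧ pth (Mc φ + 2) (mid φ) i j = [i, j])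

/-- The data of the path system of a formula, as lists of numbers. -/
def dataOf (φ : CNF3) : ℕ × (List (List Bool) × List (List ℕ)) :=
  (2 * Mc φ + 3,
   ((List.range (2 * Mc φ + 3)).map fun i => (List.range (2 * Mc φ + 3)).map fun j => adjB φ i j,
    (List.range (2 * Mc φ + 3)).flatMap fun i =>
      ((List.range (2 * Mc φ + 3)).filter fun j => decide (i < j)).map fun j =>
        pth (Mc φ + 2) (mid φ) i j))

theorem data_mkCPS {n K : ℕ} {mid : ℕ → ℕ → Option ℕ} (hg : Good n K mid) :
    (mkCPS hg).data = (n, ((List.range n).map fun i => (List.range n).map fun j =>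
        decide (i ≠ j ∧ pth K mid i j = [i, j]),
      (List.range n).flatMap fun i => ((List.range n).filter fun j => decide (i < j)).map
        fun j => pth K mid i j)) := by
  classical
  have h1 : (mkCPS hg).data = (n, ((List.finRange n).map fun i => (List.finRange n).map
        fun j => @decide ((graphOf hg).Adj i j) (Classical.propDecidable _),
      (List.finRange n).flatMap fun i => ((List.finRange n).filter fun j => decide (i < j)).map
        fun j => (walkOf hg i j).support.map Fin.val)) := rfl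
  rw [h1]
  refine Prod.ext rfl (Prod.ext ?_ ?_)
  · simp only
    rw [← map_val_finRange, List.map_map]
    apply List.map_congr_left
    intro i _
    simp only [Function.comp]
    rw [List.map_map]
    apply List.map_congr_left
    intro j _
    simp only [Function.comp]
    rw [decide_eq_decide]
    change (i ≠ j ∧ _) ↔ _
    rw [Fin.ne_iff_vne]
  · simp only
    rw [← map_val_finRange, List.flatMap_map]
    congr 1
    funext i
    rw [List.filter_map, List.map_map]
    have hf : (fun j : Fin n => decide (i < j)) =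
        ((fun j : ℕ => decide (i.1 < j)) ∘ Fin.val) := by
      funext j; simp
    rw [← hf]
    apply List.map_congr_left
    intro j _
    simp only [Function.comp]
    rw [support_walkOf, ← pthF_val hg i j]

theorem data_system (φ : CNF3) : (system φ).data = dataOf φ := data_mkCPS (good φ)

/-! ### Polynomial-time computability -/

universe u
variable {α : Type u} [Rep α]

theorem PT_Lc : PT Lc := PT.add (PT.mul (PT.const 12) (PT.length PT.id)) (PT.const 4)

theorem PT_nv : PT nv :=
  PT.succ (PT.sum (PT.map (g := fun (_ : CNF3) (c : Lit × (Lit × Lit)) =>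
    c.1.1 + (c.2.1.1 + c.2.2.1)) PT.id
    (PT.add PT.id.snd.fst.fst (PT.add PT.id.snd.snd.fst.fst PT.id.snd.snd.snd.fst))))

theorem PT_lit {l : α → Lit} {k : α → ℕ} (hl : PT l) (hk : PT k) :
    PT (fun a => lit (l a) (k a)) :=
  PT.pair (PT.const false) (PT.pair hl.fst (PT.ite hl.snd hk hk.succ))

theorem PT_nxt {L k : α → ℕ} (hL : PT L) (hk : PT k) : PT (fun a => nxt (L a) (k a)) :=
  PT.iteProp (PT.natEq hk.succ hL) (PT.const 0) hk.succ

theorem PT_cyc : PT cyc := by
  refine PT.flatMap (g := fun φ i => (List.range (Lc φ)).map fun k =>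
    (((false, (i, k)) : UN), (((false, (i, nxt (Lc φ) k)) : UN),
      if k % 2 = 0 then (some none : MN) else none))) (PT.range PT_nv) ?_
  refine PT.map (α := CNF3 × ℕ) (g := fun p k => (((false, (p.2, k)) : UN),
    (((false, (p.2, nxt (Lc p.1) k)) : UN),
      if k % 2 = 0 then (some none : MN) else none))) (PT.range (PT_Lc.comp PT.id.fst)) ?_
  refine PT.pair (PT.pair (PT.const false) (PT.pair PT.id.fst.snd PT.id.snd))
    (PT.pair (PT.pair (PT.const false) (PT.pair PT.id.fst.snd
      (PT_nxt (PT_Lc.comp PT.id.fst.fst) PT.id.snd))) ?_)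
  exact PT.iteProp (PT.natEq (PT.mod PT.id.snd (PT.const 2)) (PT.const 0))
    (PT.const (some none)) (PT.const none)

theorem PT_cls : PT cls := by
  have h : PT (fun φ : CNF3 => (List.range φ.length).flatMap fun j =>
      Option.casesOn (motive := fun _ => List (UN × (UN × MN))) φ[j]? [] fun c =>
        [(lit c.1 (12 * j), (lit c.2.1 (12 * j + 4), (some (some (true, (j, 0))) : MN))),
        (((true, (j, 0)) : UN), (lit c.2.2 (12 * j + 8), (some none : MN)))]) := by
    refine PT.flatMap (g := fun (φ : CNF3) j =>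
      Option.casesOn (motive := fun _ => List (UN × (UN × MN))) φ[j]? [] fun c =>
        [(lit c.1 (12 * j), (lit c.2.1 (12 * j + 4), (some (some (true, (j, 0))) : MN))),
        (((true, (j, 0)) : UN), (lit c.2.2 (12 * j + 8), (some none : MN)))])
      (PT.range (PT.length PT.id)) ?_
    refine PT.optionCases (α := CNF3 × ℕ) (l := fun p => p.1[p.2]?) (f := fun _ => [])
      (g := fun p c =>
        [(lit c.1 (12 * p.2), (lit c.2.1 (12 * p.2 + 4),
          (some (some (true, (p.2, 0))) : MN))),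
        (((true, (p.2, 0)) : UN), (lit c.2.2 (12 * p.2 + 8), (some none : MN)))])
      (PT.getElem? PT.id.fst PT.id.snd) (PT.const []) ?_
    have h12 : PT (fun q : (CNF3 × ℕ) × (Lit × (Lit × Lit)) => 12 * q.1.2) :=
      PT.mul (PT.const 12) PT.id.fst.snd
    refine PT.cons (PT.pair (PT_lit PT.id.snd.fst h12)
      (PT.pair (PT_lit PT.id.snd.snd.fst (h12.add (PT.const 4)))
        (PT.some (PT.some (PT.pair (PT.const true) (PT.pair PT.id.fst.snd (PT.const 0)))))))
      (PT.cons ?_ (PT.const []))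
    exact PT.pair (PT.pair (PT.const true) (PT.pair PT.id.fst.snd (PT.const 0)))
      (PT.pair (PT_lit PT.id.snd.snd.snd (h12.add (PT.const 8))) (PT.const (some none)))
  refine h.congr fun φ => ?_
  unfold cls
  congr 1
  funext j
  cases φ[j]? <;> rfl

theorem PT_cons : PT cons := PT.append PT_cyc PT_cls

theorem PT_unames : PT unames := by
  refine PT.append ?_ ?_
  · refine PT.flatMap (g := fun φ i => (List.range (Lc φ)).map fun k =>
      ((false, (i, k)) : UN)) (PT.range PT_nv) ?_
    exact PT.map (α := CNF3 × ℕ) (g := fun p k => ((false, (p.2, k)) : UN))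
      (PT.range (PT_Lc.comp PT.id.fst))
      (PT.pair (PT.const false) (PT.pair PT.id.fst.snd PT.id.snd))
  · exact PT.map (g := fun _ j => ((true, (j, 0)) : UN)) (PT.range (PT.length PT.id))
      (PT.pair (PT.const true) (PT.pair PT.id.snd (PT.const 0)))

theorem PT_names : PT names :=
  PT.append (PT.map (g := fun _ x => ((false, x) : FN)) PT_unames
      (PT.pair (PT.const false) PT.id.snd))
    (PT.map (g := fun _ x => ((true, x) : FN)) PT_unames (PT.pair (PT.const true) PT.id.snd))

theorem PT_Mc : PT Mc := PT.length PT_names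

theorem PT_samePair {x y u v : α → UN} (hx : PT x) (hy : PT y) (hu : PT u) (hv : PT v) :
    PT (fun a => decide (SamePair (x a) (y a) (u a) (v a))) :=
  (PT.decOr (PT.decAnd (PT.eq hx hu) (PT.eq hy hv))
    (PT.decAnd (PT.eq hx hv) (PT.eq hy hu))).congr fun a => rfl

theorem PT_look {φ : α → CNF3} {x y : α → UN} (hφ : PT φ) (hx : PT x) (hy : PT y) :
    PT (fun a => look (φ a) (x a) (y a)) :=
  PT.optionMap (g := fun (_ : α) (c : UN × (UN × MN)) => c.2.2)
    (PT.find? (g := fun (a : α) (c : UN × (UN × MN)) =>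
      decide (SamePair (x a) (y a) c.1 c.2.1)) (PT_cons.comp hφ)
      (PT_samePair (hx.comp PT.id.fst) (hy.comp PT.id.fst) PT.id.snd.fst PT.id.snd.snd.fst))
    PT.id.snd.snd.snd

theorem PT_mnum : PT (fun p : (CNF3 × Bool) × MN => mnum p.1.1 p.1.2 p.2) := by
  have h : PT (fun p : (CNF3 × Bool) × MN =>
      Option.casesOn (motive := fun _ => ℕ) p.2 0 fun m =>
        Option.casesOn (motive := fun _ => ℕ) m (if p.1.2 then 1 else Mc p.1.1 + 2)
          fun z => Mc p.1.1 + 3 + idx (p.1.2, z) (names p.1.1)) := by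
    refine PT.optionCases (l := fun p : (CNF3 × Bool) × MN => p.2) (f := fun _ => 0)
      (g := fun p m => Option.casesOn (motive := fun _ => ℕ) m
        (if p.1.2 then 1 else Mc p.1.1 + 2)
          fun z => Mc p.1.1 + 3 + idx (p.1.2, z) (names p.1.1)) PT.id.snd (PT.const 0) ?_
    refine PT.optionCases (α := ((CNF3 × Bool) × MN) × Option UN) (l := fun q => q.2)
      (f := fun q => if q.1.1.2 then 1 else Mc q.1.1.1 + 2)
      (g := fun q z => Mc q.1.1.1 + 3 + idx (q.1.1.2, z) (names q.1.1.1)) PT.id.snd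
      (PT.ite PT.id.fst.fst.snd (PT.const 1)
        (PT.add (PT_Mc.comp PT.id.fst.fst.fst) (PT.const 2))) ?_
    exact PT.add (PT.add (PT_Mc.comp PT.id.fst.fst.fst.fst) (PT.const 3))
      (PT.idx (PT.pair PT.id.fst.fst.fst.snd PT.id.snd) (PT_names.comp PT.id.fst.fst.fst.fst))
  refine h.congr fun p => ?_
  rcases p with ⟨⟨φ, κ⟩, _ | _ | z⟩ <;> rfl

theorem PT_midN {φ : α → CNF3} {x y : α → Option FN} (hφ : PT φ) (hx : PT x) (hy : PT y) :
    PT (fun a => midN (φ a) (x a) (y a)) := by
  have h : PT (fun p : CNF3 × (Option FN × Option FN) =>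
      p.2.1.bind fun x => p.2.2.bind fun y =>
        if x.1 = y.1 then (look p.1 x.2 y.2).map (mnum p.1 x.1) else none) := by
    refine PT.optionBind (f := fun p : CNF3 × (Option FN × Option FN) => p.2.1)
      (g := fun p x => p.2.2.bind fun y =>
        if x.1 = y.1 then (look p.1 x.2 y.2).map (mnum p.1 x.1) else none) PT.id.snd.fst ?_
    refine PT.optionBind (α := (CNF3 × (Option FN × Option FN)) × FN) (f := fun q => q.1.2.2)
      (g := fun q y =>
        if q.2.1 = y.1 then (look q.1.1 q.2.2 y.2).map (mnum q.1.1 q.2.1) else none)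
      PT.id.fst.snd.snd ?_
    refine PT.iteProp (PT.eq PT.id.fst.snd.fst PT.id.snd.fst) ?_ (PT.const none)
    refine PT.optionMap (α := ((CNF3 × (Option FN × Option FN)) × FN) × FN)
      (f := fun r => look r.1.1.1 r.1.2.2 r.2.2)
      (g := fun r m => mnum r.1.1.1 r.1.2.1 m)
      (PT_look PT.id.fst.fst.fst PT.id.fst.snd.snd PT.id.snd.snd) ?_
    exact PT.comp (g := fun p : (CNF3 × Bool) × MN => mnum p.1.1 p.1.2 p.2) PT_mnum
      (PT.pair (PT.pair PT.id.fst.fst.fst.fst PT.id.fst.fst.snd.fst) PT.id.snd)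
  refine (PT.comp h (PT.pair hφ (PT.pair hx hy))).congr fun a => ?_
  simp only
  cases x a with
  | none => rfl
  | some x =>
    cases y a with
    | none => rfl
    | some y => rfl

theorem PT_mid : PT (fun p : CNF3 × (ℕ × ℕ) => mid p.1 p.2.1 p.2.2) := by
  have hM : PT (fun p : CNF3 × (ℕ × ℕ) => Mc p.1) := PT_Mc.comp PT.id.fst
  have hi : PT (fun p : CNF3 × (ℕ × ℕ) => p.2.1) := PT.id.snd.fst
  have hj : PT (fun p : CNF3 × (ℕ × ℕ) => p.2.2) := PT.id.snd.snd
  have hM1 := hM.add (PT.const 1)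
  have hM3 := hM.add (PT.const 3)
  refine PT.iteProp (PT.decAnd (PT.natEq hi (PT.const 0))
    (PT.decAnd (PT.le (PT.const 2) hj) (PT.le hj hM1))) (PT.some (hj.add hM1)) ?_
  refine PT.iteProp (PT.decAnd (PT.natEq hj (PT.const 0))
    (PT.decAnd (PT.le (PT.const 2) hi) (PT.le hi hM1))) (PT.some (hi.add hM1)) ?_
  refine PT.iteProp (PT.decAnd (PT.le hM3 hi) (PT.le hM3 hj)) ?_ (PT.const none)
  exact PT_midN PT.id.fst (PT.getElem? (PT_names.comp PT.id.fst) (hi.sub hM3))
    (PT.getElem? (PT_names.comp PT.id.fst) (hj.sub hM3))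

theorem PT_range' {i k : α → ℕ} (hi : PT i) (hk : PT k) :
    PT (fun a => List.range' (i a) (k a)) :=
  (PT.map (g := fun a m => i a + m) (PT.range hk) (PT.add (hi.comp PT.id.fst)
    PT.id.snd)).congr fun a => by
    rw [List.range'_eq_map_range]

theorem PT_seg {i j : α → ℕ} (hi : PT i) (hj : PT j) : PT (fun a => seg (i a) (j a)) :=
  PT.iteProp (PT.le hi hj) (PT_range' hi (hj.succ.sub hi))
    (PT.reverse (PT_range' hj (hi.succ.sub hj)))

theorem PT_inLong {K i : α → ℕ} (hK : PT K) (hi : PT i) :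
    PT (fun a => decide (inLong (K a) (i a))) :=
  (PT.decAnd (PT.le (PT.const 1) hi) (PT.le hi hK)).congr fun _ => rfl

theorem PT_pth : PT (fun p : CNF3 × (ℕ × ℕ) => pth (Mc p.1 + 2) (mid p.1) p.2.1 p.2.2) := by
  have hK : PT (fun p : CNF3 × (ℕ × ℕ) => Mc p.1 + 2) := (PT_Mc.comp PT.id.fst).add (PT.const 2)
  have hi : PT (fun p : CNF3 × (ℕ × ℕ) => p.2.1) := PT.id.snd.fst
  have hj : PT (fun p : CNF3 × (ℕ × ℕ) => p.2.2) := PT.id.snd.snd
  have h : PT (fun p : CNF3 × (ℕ × ℕ) =>
      if p.2.1 = p.2.2 then [p.2.1] else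
      if inLong (Mc p.1 + 2) p.2.1 ∧ inLong (Mc p.1 + 2) p.2.2 then seg p.2.1 p.2.2 else
      Option.casesOn (motive := fun _ => List ℕ) (mid p.1 p.2.1 p.2.2) [p.2.1, p.2.2]
        fun w => [p.2.1, w, p.2.2]) := by
    refine PT.iteProp (PT.natEq hi hj) (PT.cons hi (PT.const [])) ?_
    refine PT.iteProp (PT.decAnd (PT_inLong hK hi) (PT_inLong hK hj)) (PT_seg hi hj) ?_
    exact PT.optionCases (g := fun p w => [p.2.1, w, p.2.2]) PT_mid
      (PT.cons hi (PT.cons hj (PT.const [])))
      (PT.cons (hi.comp PT.id.fst) (PT.cons PT.id.snd (PT.cons (hj.comp PT.id.fst)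
        (PT.const []))))
  refine h.congr fun p => ?_
  unfold pth
  cases mid p.1 p.2.1 p.2.2 <;> rfl

theorem PT_adjB : PT (fun p : CNF3 × (ℕ × ℕ) => adjB p.1 p.2.1 p.2.2) :=
  PT.decAnd (p := fun p : CNF3 × (ℕ × ℕ) => p.2.1 ≠ p.2.2)
    (q := fun p => pth (Mc p.1 + 2) (mid p.1) p.2.1 p.2.2 = [p.2.1, p.2.2])
    (PT.decNot (PT.natEq PT.id.snd.fst PT.id.snd.snd))
    (PT.eq PT_pth (PT.cons PT.id.snd.fst (PT.cons PT.id.snd.snd (PT.const []))))


theorem PT_n : PT (fun φ : CNF3 => 2 * Mc φ + 3) :=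
  PT.add (PT.mul (PT.const 2) PT_Mc) (PT.const 3)

theorem PT_rangeN : PT (fun p : CNF3 × ℕ => List.range (2 * Mc p.1 + 3)) :=
  PT.range (PT_n.comp PT.id.fst)

theorem PT_matrix : PT (fun φ : CNF3 => (List.range (2 * Mc φ + 3)).map fun i =>
    (List.range (2 * Mc φ + 3)).map fun j => adjB φ i j) := by
  have h1 : PT (fun p : (CNF3 × ℕ) × ℕ => adjB p.1.1 p.1.2 p.2) :=
    PT.comp (g := fun p : CNF3 × (ℕ × ℕ) => adjB p.1 p.2.1 p.2.2) PT_adjB
      (PT.pair PT.id.fst.fst (PT.pair PT.id.fst.snd PT.id.snd))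
  have h2 : PT (fun p : CNF3 × ℕ => (List.range (2 * Mc p.1 + 3)).map fun j =>
      adjB p.1 p.2 j) :=
    PT.map (g := fun (p : CNF3 × ℕ) (j : ℕ) => adjB p.1 p.2 j) PT_rangeN h1
  exact PT.map (g := fun (φ : CNF3) (i : ℕ) => (List.range (2 * Mc φ + 3)).map fun j =>
    adjB φ i j) (PT.range PT_n) h2


theorem PT_pth3 : PT (fun p : (CNF3 × ℕ) × ℕ =>
    pth (Mc p.1.1 + 2) (mid p.1.1) p.1.2 p.2) := by
  have h := PT.comp PT_pth (f := fun p : (CNF3 × ℕ) × ℕ => (p.1.1, (p.1.2, p.2)))
    (PT.pair PT.id.fst.fst (PT.pair PT.id.fst.snd PT.id.snd))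
  exact h

theorem PT_ltB : PT (fun p : (CNF3 × ℕ) × ℕ => decide (p.1.2 < p.2)) :=
  PT.lt PT.id.fst.snd PT.id.snd

theorem PT_filterN : PT (fun p : CNF3 × ℕ => (List.range (2 * Mc p.1 + 3)).filter
    fun j => decide (p.2 < j)) :=
  PT.filter (g := fun (p : CNF3 × ℕ) (j : ℕ) => decide (p.2 < j)) PT_rangeN PT_ltB

theorem PT_row : PT (fun p : CNF3 × ℕ => ((List.range (2 * Mc p.1 + 3)).filter
    fun j => decide (p.2 < j)).map fun j => pth (Mc p.1 + 2) (mid p.1) p.2 j) :=
  PT.map (g := fun (p : CNF3 × ℕ) (j : ℕ) => pth (Mc p.1 + 2) (mid p.1) p.2 j)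
    PT_filterN PT_pth3

theorem PT_paths : PT (fun φ : CNF3 => (List.range (2 * Mc φ + 3)).flatMap fun i =>
      ((List.range (2 * Mc φ + 3)).filter fun j => decide (i < j)).map fun j =>
        pth (Mc φ + 2) (mid φ) i j) :=
  PT.flatMap (g := fun (φ : CNF3) (i : ℕ) =>
    ((List.range (2 * Mc φ + 3)).filter fun j => decide (i < j)).map fun j =>
      pth (Mc φ + 2) (mid φ) i j) (PT.range PT_n) PT_row

theorem PT_dataOf : PT dataOf := PT.pair PT_n (PT.pair PT_matrix PT_paths)

/-- The reduction is computable in polynomial time. -/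
theorem PT_system : PT system := by
  have h : PT (fun φ => (system φ).data) := PT_dataOf.congr fun φ => (data_system φ).symm
  exact h

end Pool.Agent.PathSys
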