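import Pool.Agent.Lib.MP_a08d7f_lc.Constraints

/-!
# The path system of a 3-CNF formula
-/

namespace Pool.Agent.PathSys

open Pool.Agent.PolyTime

/-- Names of the free vertices: two copies of every name. -/
abbrev FN : Type := Bool × UN

/-- The list of all names of free vertices. -/
def names (φ : CNF3) : List FN :=
  (unames φ).map (fun x => (false, x)) ++ (unames φ).map (fun x => (true, x))

/-- The middle of the constraint on a pair of names, if there is one. -/
def look (φ : CNF3) (x y : UN) : Option MN :=
  ((cons φ).find? fun c => decide (SamePair x y c.1 c.2.1)).map fun c => c.2.2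

/-- The number of free vertices. -/
def Mc (φ : CNF3) : ℕ := (names φ).length

/-- The number of the vertex that a middle stands for, in a given copy. -/
def mnum (φ : CNF3) (κ : Bool) : MN → ℕ
  | none => 0
  | some none => if κ then 1 else Mc φ + 2
  | some (some z) => Mc φ + 3 + idx (κ, z) (names φ)

/-- The middle between two free vertices, given by their names. -/
def midN (φ : CNF3) (x y : Option FN) : Option ℕ :=
  match x with
  | none => none
  | some x => match y with
    | none => none
    | some y => if x.1 = y.1 then (look φ x.2 y.2).map (mnum φ x.1) else none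

/-- The table of middle vertices. -/
def mid (φ : CNF3) (i j : ℕ) : Option ℕ :=
  if i = 0 ∧ 2 ≤ j ∧ j ≤ Mc φ + 1 then some (j + (Mc φ + 1)) else
  if j = 0 ∧ 2 ≤ i ∧ i ≤ Mc φ + 1 then some (i + (Mc φ + 1)) else
  if Mc φ + 3 ≤ i ∧ Mc φ + 3 ≤ j then
    midN φ ((names φ)[i - (Mc φ + 3)]?) ((names φ)[j - (Mc φ + 3)]?)
  else none

theorem look_some {φ : CNF3} {x y : UN} {m : MN} (h : look φ x y = some m) :
    ∃ c ∈ cons φ, SamePair x y c.1 c.2.1 ∧ c.2.2 = m := by
  unfold look at h
  rw [Option.map_eq_some_iff] at h
  obtain ⟨c, hc, rfl⟩ := h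
  have h1 := List.mem_of_find?_eq_some hc
  have h2 := List.find?_some hc
  exact ⟨c, h1, by simpa using h2, rfl⟩

theorem look_of_mem {φ : CNF3} {c : UN × (UN × MN)} {x y : UN} (hc : c ∈ cons φ)
    (h : SamePair x y c.1 c.2.1) : look φ x y = some c.2.2 := by
  cases hl : look φ x y with
  | none =>
    unfold look at hl
    rw [Option.map_eq_none_iff, List.find?_eq_none] at hl
    exact absurd (by simpa using h) (hl c hc)
  | some m =>
    obtain ⟨d, hd, hs, rfl⟩ := look_some hl
    congr 1
    refine cons_functional hd hc ?_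
    unfold SamePair at *
    rcases h with ⟨rfl, rfl⟩ | ⟨rfl, rfl⟩ <;> rcases hs with ⟨h1, h2⟩ | ⟨h1, h2⟩ <;>
      simp [h1, h2]

theorem look_symm (φ : CNF3) (x y : UN) : look φ x y = look φ y x := by
  unfold look
  congr 2
  funext c
  rw [decide_eq_decide]
  unfold SamePair
  tauto

theorem midN_symm (φ : CNF3) (x y : Option FN) : midN φ x y = midN φ y x := by
  cases x with
  | none => cases y <;> rfl
  | some x =>
    cases y with
    | none => rfl
    | some y =>
      simp only [midN]
      by_cases h : x.1 = y.1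
      · rw [if_pos h, if_pos h.symm, look_symm, h]
      · rw [if_neg h, if_neg (Ne.symm h)]

theorem mem_names {φ : CNF3} {x : FN} : x ∈ names φ ↔ x.2 ∈ unames φ := by
  obtain ⟨κ, u⟩ := x
  simp only [names, List.mem_append, List.mem_map, Prod.mk.injEq]
  cases κ <;> simp

/-- Vertex number of a name. -/
def vnum (φ : CNF3) (κ : Bool) (x : UN) : ℕ := Mc φ + 3 + idx (κ, x) (names φ)

theorem vnum_lt {φ : CNF3} {κ : Bool} {x : UN} (h : x ∈ unames φ) :
    vnum φ κ x < 2 * Mc φ + 3 := by
  have := idx_lt (x := (κ, x)) (l := names φ) (mem_names.2 h)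
  unfold vnum
  have e : Mc φ = (names φ).length := rfl
  omega

theorem names_vnum {φ : CNF3} {κ : Bool} {x : UN} (h : x ∈ unames φ) :
    (names φ)[vnum φ κ x - (Mc φ + 3)]? = some (κ, x) := by
  have := getElem?_idx (x := (κ, x)) (l := names φ) (mem_names.2 h)
  unfold vnum
  rw [Nat.add_sub_cancel_left]
  exact this

theorem mid_vnum {φ : CNF3} {κ : Bool} {x y : UN} (hx : x ∈ unames φ) (hy : y ∈ unames φ) :
    mid φ (vnum φ κ x) (vnum φ κ y) = (look φ x y).map (mnum φ κ) := by
  have h1 : Mc φ + 3 ≤ vnum φ κ x := by unfold vnum; omega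
  have h2 : Mc φ + 3 ≤ vnum φ κ y := by unfold vnum; omega
  unfold mid
  rw [if_neg (by omega), if_neg (by omega), if_pos ⟨h1, h2⟩, names_vnum hx, names_vnum hy]
  simp [midN]

/-- Analysis of the table of middles. -/
theorem mid_some {φ : CNF3} {i j w : ℕ} (h : mid φ i j = some w) :
    (i = 0 ∧ 2 ≤ j ∧ j ≤ Mc φ + 1 ∧ w = j + (Mc φ + 1)) ∨
    (j = 0 ∧ 2 ≤ i ∧ i ≤ Mc φ + 1 ∧ w = i + (Mc φ + 1)) ∨
    (Mc φ + 3 ≤ i ∧ Mc φ + 3 ≤ j ∧ ∃ κ x y m, (names φ)[i - (Mc φ + 3)]? = some (κ, x) ∧
      (names φ)[j - (Mc φ + 3)]? = some (κ, y) ∧ look φ x y = some m ∧ w = mnum φ κ m) := by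
  unfold mid at h
  split_ifs at h with h1 h2 h3
  · left; simp only [Option.some.injEq] at h; exact ⟨h1.1, h1.2.1, h1.2.2, h.symm⟩
  · right; left; simp only [Option.some.injEq] at h; exact ⟨h2.1, h2.2.1, h2.2.2, h.symm⟩
  · right; right
    refine ⟨h3.1, h3.2, ?_⟩
    cases hx : (names φ)[i - (Mc φ + 3)]? with
    | none => simp [hx, midN] at h
    | some x =>
      cases hy : (names φ)[j - (Mc φ + 3)]? with
      | none => simp [hx, hy, midN] at h
      | some y =>
        rw [hx, hy] at h
        simp only [midN] at h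
        split_ifs at h with h4
        rw [Option.map_eq_some_iff] at h
        obtain ⟨m, hm, rfl⟩ := h
        exact ⟨x.1, x.2, y.2, m, rfl, by rw [h4], hm, rfl⟩

theorem mem_names_of_getElem? {φ : CNF3} {k : ℕ} {κ : Bool} {x : UN}
    (h : (names φ)[k]? = some (κ, x)) : x ∈ unames φ :=
  mem_names.1 (List.mem_of_getElem? h)

/-- The table of middles is good. -/
theorem good (φ : CNF3) : Good (2 * Mc φ + 3) (Mc φ + 2) (mid φ) where
  long := by omega
  symm i j _ _ := by
    unfold mid
    by_cases h1 : i = 0 ∧ 2 ≤ j ∧ j ≤ Mc φ + 1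
    · rw [if_pos h1, if_neg (by omega), if_pos h1]
    · by_cases h2 : j = 0 ∧ 2 ≤ i ∧ i ≤ Mc φ + 1
      · rw [if_neg h1, if_pos h2, if_pos h2]
      · rw [if_neg h1, if_neg h2, if_neg h2, if_neg h1]
        by_cases h3 : Mc φ + 3 ≤ i ∧ Mc φ + 3 ≤ j
        · rw [if_pos h3, if_pos h3.symm, midN_symm]
        · rw [if_neg h3, if_neg fun h => h3 h.symm]
  val i j w hi hj h hij hl := by
    have hnone : ∀ a b, (a = 0 ∨ (1 ≤ a ∧ a ≤ Mc φ + 2)) → Mc φ + 3 ≤ b →
        mid φ a b = none ∧ mid φ b a = none := by
      intro a b ha hb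
      unfold mid
      constructor
      · rw [if_neg (by omega), if_neg (by omega), if_neg (by omega)]
      · rw [if_neg (by omega), if_neg (by omega), if_neg (by omega)]
    rcases mid_some h with ⟨rfl, h1, h2, rfl⟩ | ⟨rfl, h1, h2, rfl⟩ |
      ⟨h1, h2, κ, x, y, m, hx, hy, hm, rfl⟩
    · refine ⟨by omega, by omega, by omega, (hnone _ _ (Or.inl rfl) (by omega)).1,
        (hnone _ _ (Or.inr ⟨by omega, by omega⟩) (by omega)).2, ?_, ?_⟩
      · unfold inLong; omega
      · unfold inLong; omega
    · refine ⟨by omega, by omega, by omega, (hnone _ _ (Or.inr ⟨by omega, by omega⟩)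
        (by omega)).1, (hnone _ _ (Or.inl rfl) (by omega)).2, ?_, ?_⟩
      · unfold inLong; omega
      · unfold inLong; omega
    · obtain ⟨c, hc, hs, rfl⟩ := look_some hm
      have hxu := mem_names_of_getElem? hx
      have hyu := mem_names_of_getElem? hy
      rcases hcm : c.2.2 with _ | _ | z
      · simp only [mnum]
        refine ⟨by omega, by omega, by omega, (hnone _ _ (Or.inl rfl) (by omega)).2,
          (hnone _ _ (Or.inl rfl) (by omega)).1, ?_, ?_⟩ <;> unfold inLong <;> omega
      · simp only [mnum]
        have hw : 1 ≤ (if κ then 1 else Mc φ + 2) ∧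
            (if κ then 1 else Mc φ + 2) ≤ Mc φ + 2 := by
          split_ifs <;> omega
        generalize (if κ then 1 else Mc φ + 2) = w at hw
        refine ⟨by omega, by omega, by omega, (hnone _ _ (Or.inr ⟨by omega, by omega⟩)
          (by omega)).2, (hnone _ _ (Or.inr ⟨by omega, by omega⟩) (by omega)).1, ?_, ?_⟩ <;>
          unfold inLong <;> omega
      · have hz := (cons_mem hc).2.2.2 z hcm
        have hzv : mnum φ κ (some (some z)) = vnum φ κ z := rfl
        rw [hzv]
        have hz1 := vnum_lt (κ := κ) hz.1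
        have hz2 := names_vnum (κ := κ) hz.1
        have hz3 : Mc φ + 3 ≤ vnum φ κ z := by unfold vnum; omega
        have hzx : z ≠ x ∧ z ≠ y := by
          rcases hs with ⟨rfl, rfl⟩ | ⟨rfl, rfl⟩
          · exact hz.2
          · exact hz.2.symm
        have hl1 : look φ x z = none := by
          cases hh : look φ x z with
          | none => rfl
          | some m' =>
            exfalso
            obtain ⟨d, hd, hs', _⟩ := look_some hh
            have := cons_middle hc hcm hd
            rcases hs with ⟨rfl, rfl⟩ | ⟨rfl, rfl⟩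
            · exact this.1 hs'
            · refine this.2 ?_
              unfold SamePair at *
              tauto
        have hl2 : look φ z y = none := by
          cases hh : look φ z y with
          | none => rfl
          | some m' =>
            exfalso
            obtain ⟨d, hd, hs', _⟩ := look_some hh
            have := cons_middle hc hcm hd
            rcases hs with ⟨rfl, rfl⟩ | ⟨rfl, rfl⟩
            · exact this.2 hs'
            · refine this.1 ?_
              unfold SamePair at *
              tauto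
        refine ⟨hz1, ?_, ?_, ?_, ?_, ?_, ?_⟩
        · intro he
          rw [he, hx] at hz2
          simp only [Option.some.injEq, Prod.mk.injEq, true_and] at hz2
          exact hzx.1 hz2.symm
        · intro he
          rw [he, hy] at hz2
          simp only [Option.some.injEq, Prod.mk.injEq, true_and] at hz2
          exact hzx.2 hz2.symm
        · unfold mid
          rw [if_neg (by omega), if_neg (by omega), if_pos ⟨h1, hz3⟩, hx, hz2]
          simp [midN, hl1]
        · unfold mid
          rw [if_neg (by omega), if_neg (by omega), if_pos ⟨hz3, h2⟩, hy, hz2]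
          simp [midN, hl2]
        · unfold inLong; omega
        · unfold inLong; omega

/-- The path system of a formula. -/
def system (φ : CNF3) : CPS := mkCPS (good φ)

theorem mem_support {φ : CNF3} {u v w : Fin (2 * Mc φ + 3)} :
    w ∈ ((system φ).path u v).support ↔ w.1 ∈ pth (Mc φ + 2) (mid φ) u.1 v.1 := by
  have h := pthF_val (good φ) u v
  rw [← h, List.mem_map]
  change w ∈ (walkOf (good φ) u v).support ↔ _
  rw [support_walkOf]
  constructor
  · intro h1; exact ⟨w, h1, rfl⟩
  · rintro ⟨w', h1, h2⟩
    have : w' = w := Fin.ext h2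
    exact this ▸ h1

/-- Reductions of the path system of a formula in elementary terms. -/
theorem exists_reduction_iff (φ : CNF3) : (∃ A, (system φ).IsReduction A) ↔
    ∃ A : Set (Fin (2 * Mc φ + 3)), A.Nonempty ∧ Aᶜ.Nonempty ∧
      (∀ u v w : Fin (2 * Mc φ + 3), u ∈ A → v ∈ A →
        w.1 ∈ pth (Mc φ + 2) (mid φ) u.1 v.1 → w ∈ A) ∧
      (∀ u v w : Fin (2 * Mc φ + 3), u ∉ A → v ∉ A →
        w.1 ∈ pth (Mc φ + 2) (mid φ) u.1 v.1 → w ∉ A) := by
  constructor
  · rintro ⟨A, h1, h2, h3, h4⟩
    exact ⟨A, h1, h2, fun u v w hu hv hw => h3 u hu v hv w (mem_support.2 hw),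
      fun u v w hu hv hw => h4 u hu v hv w (mem_support.2 hw)⟩
  · rintro ⟨A, h1, h2, h3, h4⟩
    exact ⟨A, h1, h2, fun u hu v hv w hw => h3 u v w hu hv (mem_support.1 hw),
      fun u hu v hv w hw => h4 u v w hu hv (mem_support.1 hw)⟩

/-- A satisfiable formula gives a reducible path system. -/
theorem reducible_of_sat {φ : CNF3} (h : Sat3 φ) : ∃ A, (system φ).IsReduction A := by
  obtain ⟨v, hv⟩ := h
  have hsol := sol_of_sat hv
  set val := valOf φ v with hval
  -- the side of the constant false
  let side : ℕ → Bool := fun i => if i = 0 then false else if i ≤ Mc φ + 2 then true else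
    match (names φ)[i - (Mc φ + 3)]? with
    | none => true
    | some x => val x.2
  have s0 : side 0 = false := by simp [side]
  have sl : ∀ i, 1 ≤ i → i ≤ Mc φ + 2 → side i = true := by
    intro i h1 h2
    simp only [side]
    rw [if_neg (by omega), if_pos h2]
  have sf : ∀ i x, Mc φ + 3 ≤ i → (names φ)[i - (Mc φ + 3)]? = some x → side i = val x.2 := by
    intro i x h1 h2
    simp only [side]
    rw [if_neg (by omega), if_neg (by omega), h2]
  have key : ∀ i j w, i < 2 * Mc φ + 3 → j < 2 * Mc φ + 3 → side i = side j →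
      w ∈ pth (Mc φ + 2) (mid φ) i j → side w = side i := by
    intro i j w hi hj hs hw
    unfold pth at hw
    split_ifs at hw with h1 h2
    · simp at hw; rw [hw]
    · rw [mem_seg] at hw
      unfold inLong at h2
      rw [sl i (by omega) (by omega), sl w (by omega) (by omega)]
    · cases hm : mid φ i j with
      | none =>
        simp only [hm, List.mem_cons, List.not_mem_nil, or_false] at hw
        rcases hw with rfl | rfl
        · rfl
        · exact hs.symm
      | some w' =>
        simp only [hm, List.mem_cons, List.not_mem_nil, or_false] at hw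
        rcases hw with rfl | rfl | rfl
        · rfl
        · rcases mid_some hm with ⟨rfl, h3, h4, rfl⟩ | ⟨rfl, h3, h4, rfl⟩ |
            ⟨h3, h4, κ, x, y, m, hx, hy, hlk, rfl⟩
          · rw [s0, sl j (by omega) (by omega)] at hs; exact absurd hs (by simp)
          · rw [s0, sl i (by omega) (by omega)] at hs; exact absurd hs (by simp)
          · obtain ⟨c, hc, hsp, rfl⟩ := look_some hlk
            have e1 := sf i _ h3 hx
            have e2 := sf j _ h4 hy
            rw [e1, e2] at hs
            have hmv : mval val c.2.2 = val x := by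
              have := hsol c hc
              rcases hsp with ⟨rfl, rfl⟩ | ⟨rfl, rfl⟩
              · exact this hs
              · rw [this hs.symm]; exact hs.symm
            have hside : side (mnum φ κ c.2.2) = mval val c.2.2 := by
              rcases hcm : c.2.2 with _ | _ | z
              · exact s0
              · simp only [mnum, mval]
                exact sl _ (by split_ifs <;> omega) (by split_ifs <;> omega)
              · have hz := (cons_mem hc).2.2.2 z hcm
                have := sf (vnum φ κ z) _ (by unfold vnum; omega) (names_vnum hz.1)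
                exact this
            rw [hside, hmv, e1]
        · exact hs.symm
  rw [exists_reduction_iff]
  refine ⟨{i : Fin (2 * Mc φ + 3) | side i.1 = false}, ⟨⟨0, by omega⟩, s0⟩,
    ⟨⟨1, by omega⟩, ?_⟩, ?_, ?_⟩
  · intro h1
    have := sl 1 le_rfl (by omega)
    exact absurd (this.symm.trans h1) (by simp)
  · intro a b w ha hb hw
    have h1 := key a.1 b.1 w.1 a.2 b.2 (Eq.trans ha (Eq.symm hb)) hw
    exact h1.trans ha
  · intro a b w ha hb hw
    have ha' : side a.1 = true := by
      cases h : side a.1
      · exact absurd h ha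
      · rfl
    have hb' : side b.1 = true := by
      cases h : side b.1
      · exact absurd h hb
      · rfl
    have h1 := key a.1 b.1 w.1 a.2 b.2 (ha'.trans hb'.symm) hw
    intro hw'
    exact absurd ((h1.trans ha').symm.trans hw') (by simp)

/-- A reducible path system gives a satisfiable formula. -/
theorem sat_of_reducible {φ : CNF3} (h : ∃ A, (system φ).IsReduction A) : Sat3 φ := by
  rw [exists_reduction_iff] at h
  obtain ⟨A, hA1, hA2, hA3, hA4⟩ := h
  classical
  -- extend the side of a vertex to all numbers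
  let side : ℕ → Bool := fun i => if h : i < 2 * Mc φ + 3 then decide ((⟨i, h⟩ : Fin _) ∈ A)
    else false
  have key : ∀ i j w, i < 2 * Mc φ + 3 → j < 2 * Mc φ + 3 → side i = side j →
      w ∈ pth (Mc φ + 2) (mid φ) i j → side w = side i := by
    intro i j w hi hj hs hw
    have hwb := pth_bound (good φ) hi hj hw
    simp only [side, hi, hj, hwb, dif_pos] at hs ⊢
    by_cases h1 : (⟨i, hi⟩ : Fin (2 * Mc φ + 3)) ∈ A
    · have h2 : (⟨j, hj⟩ : Fin (2 * Mc φ + 3)) ∈ A := by
        by_contra hc; simp [h1, hc] at hs
      have h3 := hA3 ⟨i, hi⟩ ⟨j, hj⟩ ⟨w, hwb⟩ h1 h2 hw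
      simp [h1, h3]
    · have h2 : (⟨j, hj⟩ : Fin (2 * Mc φ + 3)) ∉ A := by
        intro hc; simp [h1, hc] at hs
      have h3 := hA4 ⟨i, hi⟩ ⟨j, hj⟩ ⟨w, hwb⟩ h1 h2 hw
      simp [h1, h3]
  have hMc : Mc φ = (names φ).length := rfl
  -- the three seeds are not all on the same side
  have hseed : ¬ (side 0 = side 1 ∧ side 0 = side (Mc φ + 2)) := by
    rintro ⟨h1, h2⟩
    have hlong : ∀ i, 1 ≤ i → i ≤ Mc φ + 2 → side i = side 0 := by
      intro i hi1 hi2
      rw [h1]
      refine key 1 (Mc φ + 2) i (by omega) (by omega) (h1.symm.trans h2) ?_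
      unfold pth
      rw [if_neg (by omega), if_pos ⟨⟨le_rfl, by omega⟩, ⟨by omega, le_rfl⟩⟩, mem_seg]
      omega
    have hall : ∀ i, i < 2 * Mc φ + 3 → side i = side 0 := by
      intro i hi
      rcases Nat.eq_zero_or_pos i with rfl | h0
      · rfl
      · rcases Nat.lt_or_ge (Mc φ + 2) i with h3 | h3
        · refine key 0 (i - (Mc φ + 1)) i (by omega) (by omega)
            (hlong _ (by omega) (by omega)).symm ?_
          have hm : mid φ 0 (i - (Mc φ + 1)) = some i := by
            unfold mid
            rw [if_pos ⟨rfl, by omega, by omega⟩]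
            congr 1; omega
          unfold pth
          rw [if_neg (by omega), if_neg (by unfold inLong; omega), hm]
          simp
        · exact hlong i h0 h3
    obtain ⟨a, ha⟩ := hA1
    obtain ⟨b, hb⟩ := hA2
    have e1 := hall a.1 a.2
    have e2 := hall b.1 b.2
    rw [← e2] at e1
    have ha' : side a.1 = true := by
      simp only [side]; rw [dif_pos a.2]; exact decide_eq_true ha
    have hb' : side b.1 = false := by
      simp only [side]; rw [dif_pos b.2]; exact decide_eq_false hb
    rw [ha', hb'] at e1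
    exact absurd e1 (by simp)
  -- choose the copy whose constants differ
  obtain ⟨κ, hκ⟩ : ∃ κ : Bool, side (if κ then 1 else Mc φ + 2) ≠ side 0 := by
    by_cases h1 : side 0 = side 1
    · refine ⟨false, fun h2 => hseed ⟨h1, ?_⟩⟩
      simpa using h2.symm
    · refine ⟨true, fun h2 => h1 ?_⟩
      simpa using h2.symm
  refine sat_of_sol (val := fun x => xor (side (vnum φ κ x)) (side 0)) ?_
  intro c hc he
  obtain ⟨hx, hy, hne, hz⟩ := cons_mem hc
  simp only at he
  have he' : side (vnum φ κ c.1) = side (vnum φ κ c.2.1) := by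
    cases h1 : side (vnum φ κ c.1) <;> cases h2 : side (vnum φ κ c.2.1) <;>
      cases h3 : side 0 <;> simp [h1, h2, h3] at he ⊢
  have hvne : vnum φ κ c.1 ≠ vnum φ κ c.2.1 := by
    intro h1
    have h2 := names_vnum (κ := κ) hx
    rw [h1, names_vnum hy] at h2
    simp only [Option.some.injEq, Prod.mk.injEq, true_and] at h2
    exact hne h2.symm
  have hmid : mid φ (vnum φ κ c.1) (vnum φ κ c.2.1) = some (mnum φ κ c.2.2) := by
    rw [mid_vnum hx hy, look_of_mem hc (Or.inl ⟨rfl, rfl⟩)]
    rfl
  have hw := key _ _ (mnum φ κ c.2.2) (vnum_lt hx) (vnum_lt hy) he' (by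
    unfold pth
    rw [if_neg hvne, if_neg (by unfold inLong vnum; omega), hmid]
    simp)
  have hmv : mval (fun x => xor (side (vnum φ κ x)) (side 0)) c.2.2 =
      xor (side (mnum φ κ c.2.2)) (side 0) := by
    rcases hcm : c.2.2 with _ | _ | z
    · simp [mval, mnum]
    · simp only [mval, mnum]
      cases h1 : side (if κ then 1 else Mc φ + 2) <;> cases h2 : side 0 <;>
        simp [h1, h2] at hκ ⊢
    · rfl
  rw [hmv, hw]

/-- The reduction is correct. -/
theorem sat_iff (φ : CNF3) : Sat3 φ ↔ ¬ (system φ).Irreducible := by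
  unfold CPS.Irreducible
  rw [not_not]
  exact ⟨reducible_of_sat, sat_of_reducible⟩

end Pool.Agent.PathSys
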